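import Mathlib

/-!
# Minimum degree at least `k` is an infinity-elusive property for every `k ≥ 2`
-/

set_option autoImplicit false

namespace Pool.Agent.Results.MP_3b52ff_co.MinDegreeElusive

open Finset

/-! ### Definitions of the problem -/

/-- The unordered pairs of distinct natural numbers. -/
abbrev Pair : Type := {e : Sym2 ℕ // ¬ e.IsDiag}

/-- The history after `n` turns, when Seeker follows `σ` and Hider gives the answers `c`
(`true` is green, `false` is red): the list of the chosen pairs with their colours. -/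
def hist (σ : List (Pair × Bool) → Pair) (c : ℕ → Bool) : ℕ → List (Pair × Bool)
  | 0 => []
  | n + 1 => hist σ c n ++ [(σ (hist σ c n), c n)]

/-- The pair chosen by Seeker at turn `n`. -/
def move (σ : List (Pair × Bool) → Pair) (c : ℕ → Bool) (n : ℕ) : Pair := σ (hist σ c n)

/-- `σ` is a strategy of Seeker: whatever Hider answers, every chosen pair is still white. -/
def IsStrategy (σ : List (Pair × Bool) → Pair) : Prop :=
  ∀ (c : ℕ → Bool) (m n : ℕ), m < n → move σ c m ≠ move σ c n

/-- The green pairs at the end of the run. -/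
def green (σ : List (Pair × Bool) → Pair) (c : ℕ → Bool) : Set Pair :=
  {e | ∃ n, move σ c n = e ∧ c n = true}

/-- The white pairs at the end of the run. -/
def white (σ : List (Pair × Bool) → Pair) (c : ℕ → Bool) : Set Pair := {e | ∀ n, move σ c n ≠ e}

/-- The graphs compatible with the final position. -/
def compat (σ : List (Pair × Bool) → Pair) (c : ℕ → Bool) : Set (Set Pair) :=
  {H | green σ c ⊆ H ∧ H ⊆ green σ c ∪ white σ c}

/-- Seeker wins the run for the property `S`. -/
def SeekerWins (S : Set (Set Pair)) (σ : List (Pair × Bool) → Pair) (c : ℕ → Bool) : Prop :=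
  (white σ c).Nonempty ∧ (compat σ c ⊆ S ∨ compat σ c ∩ S = ∅)

/-- The property `S` is infinity-elusive: Seeker has no winning strategy. -/
def InfElusive (S : Set (Set Pair)) : Prop :=
  ¬ ∃ σ : List (Pair × Bool) → Pair, IsStrategy σ ∧ ∀ c : ℕ → Bool, SeekerWins S σ c

/-- The property `D_k`: every vertex has degree at least `k`. -/
def D (k : ℕ) : Set (Set Pair) := {G | ∀ v : ℕ, (k : ℕ∞) ≤ {e : Pair | e ∈ G ∧ v ∈ e.1}.encard}

/-! ### Hider's strategy -/

/-- smaller endpoint -/
def lo (e : Pair) : ℕ := e.1.inf

/-- larger endpoint -/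
def hi (e : Pair) : ℕ := e.1.sup

theorem lo_lt_hi (e : Pair) : lo e < hi e := by
  obtain ⟨e, he⟩ := e
  induction e using Sym2.inductionOn with | _ a b => ?_
  have : a ≠ b := fun h => he (by rw [Sym2.mk_isDiag_iff]; exact h)
  show min a b < max a b
  omega

theorem eq_mk (e : Pair) : e.1 = s(lo e, hi e) := by
  obtain ⟨e, he⟩ := e
  induction e using Sym2.inductionOn with | _ a b => ?_
  show s(a, b) = s(min a b, max a b)
  rcases le_total a b with h | h
  · rw [min_eq_left h, max_eq_right h]
  · rw [min_eq_right h, max_eq_left h, Sym2.eq_swap]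

theorem mem_iff (v : ℕ) (e : Pair) : v ∈ e.1 ↔ lo e = v ∨ hi e = v := by
  rw [eq_mk e, Sym2.mem_iff]
  constructor <;> rintro (h | h) <;> simp [h]

/-- the pair with endpoints `a < b` -/
def mk (a b : ℕ) (h : a < b) : Pair := ⟨s(a, b), by rw [Sym2.mk_isDiag_iff]; omega⟩

theorem lo_mk (a b : ℕ) (h : a < b) : lo (mk a b h) = a := by
  show min a b = a
  omega

theorem hi_mk (a b : ℕ) (h : a < b) : hi (mk a b h) = b := by
  show max a b = b
  omega

theorem ext_lohi {e f : Pair} (h1 : lo e = lo f) (h2 : hi e = hi f) : e = f := by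
  apply Subtype.ext
  rw [eq_mk e, eq_mk f, h1, h2]

/-- Hider's answer, as a function of the history and of the chosen pair -/
def ans (k : ℕ) (h : List (Pair × Bool)) (x : Pair) : Bool :=
  decide ((Nat.unpair (hi x)).1 = lo x ∧
    h.countP (fun p => p.2 && decide (lo p.1 = lo x)) + h.countP (fun p => p.2 && decide (hi p.1 = lo x))
      + ((range (lo x)).filter (fun u => ∀ p ∈ h, ¬ (lo p.1 = u ∧ hi p.1 = lo x))).card < k)

/-- the history when Hider follows `ans` -/
def hh (σ : List (Pair × Bool) → Pair) (k : ℕ) : ℕ → List (Pair × Bool)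
  | 0 => []
  | n + 1 => hh σ k n ++ [(σ (hh σ k n), ans k (hh σ k n) (σ (hh σ k n)))]

/-- Hider's answers -/
def cc (σ : List (Pair × Bool) → Pair) (k : ℕ) (n : ℕ) : Bool :=
  ans k (hh σ k n) (σ (hh σ k n))

theorem hist_eq (σ : List (Pair × Bool) → Pair) (k n : ℕ) : hist σ (cc σ k) n = hh σ k n := by
  induction n with
  | zero => rfl
  | succ n ih =>
    show hist σ (cc σ k) n ++ [(σ (hist σ (cc σ k) n), cc σ k n)] = _
    rw [ih]
    rfl

section run

variable (e : ℕ → Pair) (c : ℕ → Bool) (k : ℕ)

/-- green edges at `z` with smaller endpoint `z` -/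
def own (n z : ℕ) : ℕ := ((range n).filter (fun m => c m = true ∧ lo (e m) = z)).card

/-- green edges at `z` with larger endpoint `z` -/
def hol (n z : ℕ) : ℕ := ((range n).filter (fun m => c m = true ∧ hi (e m) = z)).card

/-- number of white pairs with larger endpoint `z` -/
def low (n z : ℕ) : ℕ :=
  ((range z).filter (fun u => ∀ m < n, ¬ (lo (e m) = u ∧ hi (e m) = z))).card

end run

theorem hh_mem (σ : List (Pair × Bool) → Pair) (k n : ℕ) (p : Pair × Bool) :
    p ∈ hh σ k n ↔ ∃ m < n, p = (σ (hh σ k m), cc σ k m) := by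
  induction n with
  | zero => simp [hh]
  | succ n ih =>
    show p ∈ hh σ k n ++ [(σ (hh σ k n), cc σ k n)] ↔ _
    rw [List.mem_append, ih, List.mem_singleton]
    constructor
    · rintro (⟨m, hm, h⟩ | h)
      · exact ⟨m, by omega, h⟩
      · exact ⟨n, by omega, h⟩
    · rintro ⟨m, hm, h⟩
      rcases Nat.lt_succ_iff_lt_or_eq.1 hm with h1 | h1
      · exact Or.inl ⟨m, h1, h⟩
      · subst h1; exact Or.inr h

theorem hh_countP (σ : List (Pair × Bool) → Pair) (k n : ℕ) (Q : Pair → Prop) [DecidablePred Q] :
    (hh σ k n).countP (fun p => p.2 && decide (Q p.1))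
      = ((range n).filter (fun m => cc σ k m = true ∧ Q (σ (hh σ k m)))).card := by
  induction n with
  | zero => simp [hh]
  | succ n ih =>
    have e1 : hh σ k (n + 1) = hh σ k n ++ [(σ (hh σ k n), cc σ k n)] := rfl
    rw [e1, List.countP_append, ih, range_add_one, filter_insert]
    by_cases h : cc σ k n = true ∧ Q (σ (hh σ k n))
    · rw [if_pos h, card_insert_of_notMem (by simp)]
      simp [h.1, h.2]
    · rw [if_neg h]
      have h2 : ((cc σ k n) && decide (Q (σ (hh σ k n)))) = false := by
        rw [Bool.eq_false_iff]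
        intro h3
        rw [Bool.and_eq_true, decide_eq_true_eq] at h3
        exact h h3
      simp [h2]

/-- The rule in terms of turns. -/
theorem cc_iff (σ : List (Pair × Bool) → Pair) (k n : ℕ) :
    cc σ k n = true ↔ (Nat.unpair (hi (move σ (cc σ k) n))).1 = lo (move σ (cc σ k) n) ∧
      own (move σ (cc σ k)) (cc σ k) n (lo (move σ (cc σ k) n))
        + hol (move σ (cc σ k)) (cc σ k) n (lo (move σ (cc σ k) n))
        + low (move σ (cc σ k)) n (lo (move σ (cc σ k) n)) < k := by
  have hmv : ∀ m, move σ (cc σ k) m = σ (hh σ k m) := fun m => by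
    unfold move; rw [hist_eq]
  have h1 : ∀ z, low (move σ (cc σ k)) n z
      = ((range z).filter (fun u => ∀ p ∈ hh σ k n, ¬ (lo p.1 = u ∧ hi p.1 = z))).card := by
    intro z
    unfold low
    congr 1
    apply filter_congr
    intro u _
    constructor
    · intro h p hp
      obtain ⟨m, hm, rfl⟩ := (hh_mem σ k n p).1 hp
      have := h m hm
      rwa [hmv] at this
    · intro h m hm
      rw [hmv]
      exact h _ ((hh_mem σ k n _).2 ⟨m, hm, rfl⟩)
  have h2 : ∀ z, own (move σ (cc σ k)) (cc σ k) n z
      = (hh σ k n).countP (fun p => p.2 && decide (lo p.1 = z)) := by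
    intro z
    rw [hh_countP σ k n (fun x => lo x = z)]
    unfold own
    simp only [hmv]
  have h3 : ∀ z, hol (move σ (cc σ k)) (cc σ k) n z
      = (hh σ k n).countP (fun p => p.2 && decide (hi p.1 = z)) := by
    intro z
    rw [hh_countP σ k n (fun x => hi x = z)]
    unfold hol
    simp only [hmv]
  rw [h1, h2, h3, hmv]
  unfold cc ans
  rw [decide_eq_true_eq]

/-! ### Analysis of a run -/

section analysis

variable {e : ℕ → Pair} {c : ℕ → Bool} {k : ℕ}

theorem own_succ (n z : ℕ) : own e c (n + 1) z
    = own e c n z + if c n = true ∧ lo (e n) = z then 1 else 0 := by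
  unfold own
  rw [range_add_one, filter_insert]
  split_ifs with h
  · rw [card_insert_of_notMem (by simp)]
  · rfl

theorem hol_succ (n z : ℕ) : hol e c (n + 1) z
    = hol e c n z + if c n = true ∧ hi (e n) = z then 1 else 0 := by
  unfold hol
  rw [range_add_one, filter_insert]
  split_ifs with h
  · rw [card_insert_of_notMem (by simp)]
  · rfl

theorem low_succ_le (n z : ℕ) : low e (n + 1) z ≤ low e n z := by
  unfold low
  apply card_le_card
  intro u hu
  rw [mem_filter] at hu ⊢
  exact ⟨hu.1, fun m hm => hu.2 m (by omega)⟩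

theorem low_mono {m n z : ℕ} (h : m ≤ n) : low e n z ≤ low e m z := by
  induction n, h using Nat.le_induction with
  | base => exact le_rfl
  | succ n _ ih => exact (low_succ_le n z).trans ih

theorem low_succ_lt (hd : ∀ m n, m < n → e m ≠ e n) (n : ℕ) :
    low e (n + 1) (hi (e n)) + 1 ≤ low e n (hi (e n)) := by
  unfold low
  have hmem : lo (e n) ∈ (range (hi (e n))).filter
      (fun u => ∀ m < n, ¬ (lo (e m) = u ∧ hi (e m) = hi (e n))) := by
    rw [mem_filter, mem_range]
    refine ⟨lo_lt_hi _, fun m hm h => hd m n hm (ext_lohi h.1 h.2)⟩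
  have hsub : (range (hi (e n))).filter
      (fun u => ∀ m < n + 1, ¬ (lo (e m) = u ∧ hi (e m) = hi (e n))) ⊆
      ((range (hi (e n))).filter
      (fun u => ∀ m < n, ¬ (lo (e m) = u ∧ hi (e m) = hi (e n)))).erase (lo (e n)) := by
    intro u hu
    rw [mem_filter] at hu
    rw [mem_erase, mem_filter]
    exact ⟨fun h => hu.2 n (by omega) ⟨h.symm, rfl⟩, hu.1, fun m hm => hu.2 m (by omega)⟩
  have h1 := card_le_card hsub
  have h2 := card_erase_add_one hmem
  omega

/-- each vertex has at most one green edge to its holder -/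
theorem hol_le_one (hd : ∀ m n, m < n → e m ≠ e n)
    (hc : ∀ n, c n = true → (Nat.unpair (hi (e n))).1 = lo (e n)) (n z : ℕ) : hol e c n z ≤ 1 := by
  unfold hol
  rw [card_le_one]
  intro m hm m' hm'
  rw [mem_filter] at hm hm'
  have heq : e m = e m' := by
    apply ext_lohi
    · rw [← hc m hm.2.1, ← hc m' hm'.2.1, hm.2.2, hm'.2.2]
    · rw [hm.2.2, hm'.2.2]
  rcases lt_trichotomy m m' with h | h | h
  · exact absurd heq (hd _ _ h)
  · exact h
  · exact absurd heq.symm (hd _ _ h)

/-- main invariant -/
theorem invariant (hd : ∀ m n, m < n → e m ≠ e n)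
    (hc : ∀ n, c n = true ↔ (Nat.unpair (hi (e n))).1 = lo (e n) ∧
      own e c n (lo (e n)) + hol e c n (lo (e n)) + low e n (lo (e n)) < k) (n z : ℕ) :
    own e c n z = 0 ∨ own e c n z + hol e c n z + low e n z ≤ k := by
  induction n with
  | zero => left; simp [own]
  | succ n ih =>
    have hlow := low_succ_le (e := e) n z
    rw [own_succ, hol_succ]
    by_cases hcn : c n = true
    · by_cases h1 : lo (e n) = z
      · right
        have h2 : hi (e n) ≠ z := by
          have := lo_lt_hi (e n)
          omega
        have h3 := ((hc n).1 hcn).2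
        rw [h1] at h3
        simp only [hcn, h1, h2, and_true, and_false, if_true, if_false]
        omega
      · by_cases h2 : hi (e n) = z
        · have h4 := low_succ_lt hd n
          rw [h2] at h4
          simp only [hcn, h1, h2, and_true, and_false, if_true, if_false]
          omega
        · simp only [h1, h2, and_false, if_false]
          omega
    · rw [if_neg (fun h => hcn h.1), if_neg (fun h => hcn h.1)]
      omega

/-- a finite set of green edges at `z` is counted by `own + hol` -/
theorem card_le_counts (n z : ℕ) (t : Finset Pair)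
    (ht : ∀ x ∈ t, z ∈ x.1 ∧ ∃ m < n, e m = x ∧ c m = true) :
    t.card ≤ own e c n z + hol e c n z := by
  have h1 : t ⊆ ((range n).filter (fun m => c m = true ∧ lo (e m) = z)
      ∪ (range n).filter (fun m => c m = true ∧ hi (e m) = z)).image e := by
    intro x hx
    obtain ⟨hz, m, hm, hmx, hcm⟩ := ht x hx
    rw [mem_image]
    refine ⟨m, ?_, hmx⟩
    rw [mem_union, mem_filter, mem_filter, mem_range]
    rcases (mem_iff z x).1 hz with h | h
    · exact Or.inl ⟨hm, hcm, by rw [hmx]; exact h⟩
    · exact Or.inr ⟨hm, hcm, by rw [hmx]; exact h⟩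
  exact (card_le_card h1).trans (card_image_le.trans (card_union_le _ _))

end analysis

theorem exists_bound {α : Type} (t : Finset α) (f : α → ℕ) : ∃ n, ∀ x ∈ t, f x < n :=
  ⟨t.sup f + 1, fun _ hx => Nat.lt_succ_of_le (le_sup (f := f) hx)⟩

/-- **Main result.** For every `k ≥ 2`, the property that every vertex has degree at least `k` is
infinity-elusive. -/
theorem result (k : ℕ) (hk : 2 ≤ k) : InfElusive (D k) := by
  classical
  rintro ⟨σ, hσ, hwin⟩
  set c := cc σ k with hcdef
  set e := move σ c with hedef
  have hd : ∀ m n, m < n → e m ≠ e n := hσ c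
  have hc : ∀ n, c n = true ↔ (Nat.unpair (hi (e n))).1 = lo (e n) ∧
      own e c n (lo (e n)) + hol e c n (lo (e n)) + low e n (lo (e n)) < k := cc_iff σ k
  have hinv := invariant hd hc
  have hhol := hol_le_one hd (fun n hn => ((hc n).1 hn).1)
  obtain ⟨⟨w, hw⟩, hor⟩ := hwin c
  have hG : green σ c ∈ compat σ c := ⟨subset_rfl, Set.subset_union_left⟩
  have hGW : green σ c ∪ white σ c ∈ compat σ c := ⟨Set.subset_union_left, subset_rfl⟩
  -- the green graph is not in `D k`
  have hnot : green σ c ∉ D k := by
    intro hD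
    have h1 := hD (hi w)
    obtain ⟨t, ht, htc⟩ := Set.exists_subset_encard_eq h1
    have htfin : t.Finite := Set.finite_of_encard_eq_coe htc
    have hmem : ∀ x ∈ htfin.toFinset, hi w ∈ x.1 ∧ ∃ m, e m = x ∧ c m = true := by
      intro x hx
      have := ht ((Set.Finite.mem_toFinset htfin).1 hx)
      exact ⟨this.2, this.1⟩
    choose! hm1 f hf1 hf2 using hmem
    obtain ⟨n, hn⟩ := exists_bound htfin.toFinset f
    have h2 := card_le_counts (e := e) (c := c) n (hi w) htfin.toFinset
      (fun x hx => ⟨hm1 x hx, f x, hn x hx, hf1 x hx, hf2 x hx⟩)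
    have h3 : htfin.toFinset.card = k := by
      have := htfin.encard_eq_coe_toFinset_card
      rw [htc] at this
      exact_mod_cast this.symm
    have h4 : 1 ≤ low e n (hi w) := by
      unfold low
      rw [Nat.succ_le_iff, card_pos]
      refine ⟨lo w, ?_⟩
      rw [mem_filter, mem_range]
      exact ⟨lo_lt_hi w, fun m _ h => hw m (ext_lohi h.1 h.2)⟩
    have h5 := hinv n (hi w)
    have h6 := hhol n (hi w)
    omega
  -- the green and white graph is in `D k`
  have hin : green σ c ∪ white σ c ∈ D k := by
    intro v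
    by_contra hcon
    rw [not_le] at hcon
    -- the set of pairs at `v` which are green or white is finite
    have hfin : {x : Pair | x ∈ green σ c ∪ white σ c ∧ v ∈ x.1}.Finite :=
      Set.finite_of_encard_le_coe hcon.le
    -- final number of white lower pairs
    set L := (range v).filter (fun u => ∀ m, ¬ (lo (e m) = u ∧ hi (e m) = v)) with hL
    -- a time after which `low` is final
    obtain ⟨T, hT⟩ : ∃ T, ∀ n, T ≤ n → low e n v = L.card := by
      have hex : ∀ u ∈ (range v).filter (fun u => ∃ m, lo (e m) = u ∧ hi (e m) = v),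
          ∃ m, lo (e m) = u ∧ hi (e m) = v := fun u hu => (mem_filter.1 hu).2
      choose! f hf1 using hex
      obtain ⟨T, hT⟩ := exists_bound
        ((range v).filter (fun u => ∃ m, lo (e m) = u ∧ hi (e m) = v)) f
      refine ⟨T, fun n hn => ?_⟩
      unfold low
      rw [hL]
      congr 1
      apply filter_congr
      intro u hu
      constructor
      · intro h m hm
        have hu2 : u ∈ (range v).filter (fun u => ∃ m, lo (e m) = u ∧ hi (e m) = v) :=
          mem_filter.2 ⟨hu, m, hm⟩
        exact h (f u) ((hT u hu2).trans_le hn) (hf1 u hu2)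
      · intro h m _
        exact h m
    -- white lower pairs
    let Lw : Finset Pair := L.attach.image (fun u => mk u.1 v (mem_range.1 (mem_filter.1 u.2).1))
    have hLw : Lw.card = L.card := by
      rw [card_image_of_injective, card_attach]
      intro u u' h
      have := congrArg lo h
      rw [lo_mk, lo_mk] at this
      exact Subtype.ext this
    have hLwmem : ∀ x ∈ Lw, x ∈ white σ c ∧ v ∈ x.1 := by
      intro x hx
      obtain ⟨u, -, rfl⟩ := mem_image.1 hx
      refine ⟨fun m hm => (mem_filter.1 u.2).2 m ?_, ?_⟩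
      · have hm' : e m = mk u.1 v (mem_range.1 (mem_filter.1 u.2).1) := hm
        rw [hm', lo_mk, hi_mk]
        exact ⟨rfl, rfl⟩
      · rw [mem_iff, hi_mk]
        exact Or.inr rfl
    -- counting at time `n`
    have hcount : ∀ n, own e c n v + hol e c n v + L.card < k := by
      intro n
      let A : Finset ℕ := (range n).filter (fun m => c m = true ∧ (lo (e m) = v ∨ hi (e m) = v))
      have hA : A.card = own e c n v + hol e c n v := by
        unfold own hol
        rw [← card_union_of_disjoint]
        · congr 1
          ext m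
          simp only [A, mem_filter, mem_union]
          tauto
        · rw [disjoint_left]
          intro m h1 h2
          have := lo_lt_hi (e m)
          rw [mem_filter] at h1 h2
          omega
      have hinj : Set.InjOn e (A : Set ℕ) := by
        intro a _ b _ hab
        rcases lt_trichotomy a b with h | h | h
        · exact absurd hab (hd _ _ h)
        · exact h
        · exact absurd hab.symm (hd _ _ h)
      have hdisj : Disjoint (A.image e) Lw := by
        rw [disjoint_left]
        intro x h1 h2
        obtain ⟨m, _, hm⟩ := mem_image.1 h1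
        exact (hLwmem x h2).1 m hm
      have hsub : ((A.image e ∪ Lw : Finset Pair) : Set Pair)
          ⊆ {x : Pair | x ∈ green σ c ∪ white σ c ∧ v ∈ x.1} := by
        intro x hx
        rcases mem_union.1 (mem_coe.1 hx) with h | h
        · obtain ⟨m, hm, rfl⟩ := mem_image.1 h
          have hm2 := (mem_filter.1 hm).2
          exact ⟨Or.inl ⟨m, rfl, hm2.1⟩, (mem_iff v _).2 hm2.2⟩
        · exact ⟨Or.inr (hLwmem x h).1, (hLwmem x h).2⟩
      have h1 := Set.encard_le_encard hsub
      rw [Set.encard_coe_eq_coe_finsetCard, card_union_of_disjoint hdisj,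
        card_image_of_injOn hinj, hA, hLw] at h1
      have h2 := h1.trans_lt hcon
      exact_mod_cast h2
    -- the reserve of `v`
    have hRinf : {z : ℕ | v < z ∧ (Nat.unpair z).1 = v}.Infinite := by
      have hinj : Set.InjOn (fun j => Nat.pair v j) (Set.Ioi v) := by
        intro a _ b _ h
        have := congrArg Nat.unpair h
        simp only [Nat.unpair_pair] at this
        exact (Prod.ext_iff.1 this).2
      refine ((Set.Ioi_infinite v).image hinj).mono ?_
      rintro _ ⟨j, hj, rfl⟩
      refine ⟨lt_of_lt_of_le hj (Nat.right_le_pair v j), ?_⟩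
      simp
    -- pairs from `v` into the reserve chosen after time `T`
    let B : Set ℕ := {z | v < z ∧ (Nat.unpair z).1 = v ∧ ∃ m, T ≤ m ∧ lo (e m) = v ∧ hi (e m) = z}
    have hB : B.Infinite := by
      have hsub : {z : ℕ | v < z ∧ (Nat.unpair z).1 = v} ⊆
          B ∪ (((range T).image (fun m => hi (e m)) : Finset ℕ) : Set ℕ)
            ∪ hi '' {x : Pair | x ∈ green σ c ∪ white σ c ∧ v ∈ x.1} := by
        rintro z ⟨hz1, hz2⟩
        by_cases hwz : ∀ m, e m ≠ mk v z hz1
        · right
          refine ⟨mk v z hz1, ⟨Or.inr hwz, ?_⟩, hi_mk _ _ _⟩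
          rw [mem_iff, lo_mk]
          exact Or.inl rfl
        · left
          push Not at hwz
          obtain ⟨m, hm⟩ := hwz
          by_cases hmT : T ≤ m
          · left
            exact ⟨hz1, hz2, m, hmT, by rw [hm, lo_mk], by rw [hm, hi_mk]⟩
          · right
            rw [mem_coe, mem_image]
            exact ⟨m, mem_range.2 (by omega), by rw [hm, hi_mk]⟩
      intro hBfin
      exact hRinf (((hBfin.union (finite_toSet _)).union (hfin.image _)).subset hsub)
    obtain ⟨t, htB, htc⟩ := hB.exists_subset_card_eq k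
    have hex : ∀ z ∈ t, ∃ m, T ≤ m ∧ lo (e m) = v ∧ hi (e m) = z := fun z hz => (htB hz).2.2
    choose! f hf1 hf2 hf3 using hex
    obtain ⟨n, hn⟩ := exists_bound t f
    have hgreen : ∀ z ∈ t, c (f z) = true := by
      intro z hz
      rw [hc, hf2 z hz, hf3 z hz]
      refine ⟨(htB hz).2.1, ?_⟩
      rw [hT (f z) (hf1 z hz)]
      exact hcount (f z)
    have hle : t.card ≤ own e c n v := by
      unfold own
      refine card_le_card_of_injOn f ?_ ?_
      · intro z hz
        rw [mem_coe, mem_filter, mem_range]
        exact ⟨hn z hz, hgreen z hz, hf2 z hz⟩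
      · intro z hz z' hz' h
        rw [← hf3 z hz, ← hf3 z' hz', h]
    have := hcount n
    omega
  rcases hor with h | h
  · exact hnot (h hG)
  · have : green σ c ∪ white σ c ∈ compat σ c ∩ D k := ⟨hGW, hin⟩
    rw [h] at this
    exact this

end Pool.Agent.Results.MP_3b52ff_co.MinDegreeElusive
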